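import Pool.Agent.PFD.StmtsD1
import Pool.Agent.PFD.D1.Key

/-!
# Row TPB of squad PFD: the trace on `P^B`
-/

open scoped BigOperators

noncomputable section

namespace Pool.Agent.PFD.H69

open Pool.Agent.PFC.B1

section
variable {K B A I J N : Type} [Field K] [Ring B] [Algebra K B] [Ring A] [Algebra K A]
    [Module.Finite K A] [Fintype I] [Fintype J] [Fintype N] (D : Net K B A I J N)

/-- `a ↦ ∑ b_i a b_i'` -/
def tpbT : A →ₗ[K] A where
  toFun := fun a => ∑ i, D.u i * a * D.u' i
  map_add' := fun a a' => by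
    simp only [mul_add, add_mul, Finset.sum_add_distrib]
  map_smul' := fun r a => by
    simp only [mul_smul_comm, smul_mul_assoc, RingHom.id_apply, Finset.smul_sum]

/-- `p ↦ ∑ T(y_r p b_l) x_r b_l'` -/
def tpbB : A →ₗ[K] A where
  toFun := fun p => ∑ r, ∑ l, D.T (D.y r * p * D.u l) • (D.x r * D.u' l)
  map_add' := fun a a' => by
    simp only [mul_add, add_mul, D.T_add, add_smul, Finset.sum_add_distrib]
  map_smul' := fun r a => by
    simp only [mul_smul_comm, smul_mul_assoc, RingHom.id_apply, Finset.smul_sum, D.T_smul,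
      mul_smul]

theorem tpbT_comm (a : A) (b : B) : D.j b * tpbT D a = tpbT D a * D.j b := by
  show D.j b * (∑ i, D.u i * a * D.u' i) = (∑ i, D.u i * a * D.u' i) * D.j b
  have h : Bil K (fun p q : A => p * a * q) :=
    ⟨fun p p' q => by simp only [add_mul], fun p q q' => by simp only [mul_add],
      fun r p q => by simp only [smul_mul_assoc], fun r p q => by simp only [mul_smul_comm]⟩
  have h1 := D.n1 h b
  rw [Finset.mul_sum, Finset.sum_mul]
  calc ∑ i, D.j b * (D.u i * a * D.u' i) = ∑ i, D.j b * D.u i * a * D.u' i :=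
        Finset.sum_congr rfl fun i _ => by simp only [mul_assoc]
    _ = ∑ i, D.u i * a * (D.u' i * D.j b) := h1
    _ = ∑ i, D.u i * a * D.u' i * D.j b :=
        Finset.sum_congr rfl fun i _ => by simp only [mul_assoc]

theorem tpb_fix (p : D.PB) : tpbT D (tpbB D (p : A)) = p := by
  obtain ⟨p, hp0, hp⟩ := p
  show ∑ i, D.u i * (∑ r, ∑ l, D.T (D.y r * p * D.u l) • (D.x r * D.u' l)) * D.u' i = p
  have e1 : ∀ i, D.u i * (∑ r, ∑ l, D.T (D.y r * p * D.u l) • (D.x r * D.u' l)) * D.u' i
      = ∑ r, ∑ l, D.T (D.u l * D.y r * D.u' i * p) • (D.u i * D.x r * D.u' l) := by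
    intro i
    rw [Finset.mul_sum, Finset.sum_mul]
    refine Finset.sum_congr rfl fun r _ => ?_
    rw [Finset.mul_sum, Finset.sum_mul]
    have hb : Bil K (fun c q : A => D.T (D.y r * p * c) • (D.u i * D.x r * q)) :=
      ⟨fun c c' q => by simp only [mul_add, D.T_add, add_smul],
        fun c q q' => by simp only [mul_add, smul_add],
        fun s c q => by simp only [mul_smul_comm, D.T_smul, mul_smul],
        fun s c q => by simp only [mul_smul_comm]; rw [smul_comm]⟩
    have h1 := D.n1 hb (D.c.b' i)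
    calc ∑ l, D.u i * (D.T (D.y r * p * D.u l) • (D.x r * D.u' l)) * D.u' i
        = ∑ l, D.T (D.y r * p * D.u l) • (D.u i * D.x r * (D.u' l * D.j (D.c.b' i))) :=
          Finset.sum_congr rfl fun l _ => by
            rw [mul_smul_comm, smul_mul_assoc]
            simp only [mul_assoc, Net.u']
      _ = ∑ l, D.T (D.y r * p * (D.j (D.c.b' i) * D.u l)) • (D.u i * D.x r * D.u' l) := h1.symm
      _ = ∑ l, D.T (D.u l * D.y r * D.u' i * p) • (D.u i * D.x r * D.u' l) :=
          Finset.sum_congr rfl fun l _ => by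
            have e2 : D.y r * p * (D.j (D.c.b' i) * D.u l)
                = D.y r * (D.j (D.c.b' i) * p) * D.u l := by
              rw [hp (D.c.b' i)]
              simp only [mul_assoc]
            rw [e2, D.T_comm]
            simp only [mul_assoc, Net.u']
  rw [Finset.sum_congr rfl fun i _ => e1 i, Finset.sum_comm]
  have h2 := D.cx p
  rw [hp0, map_zero, sub_zero] at h2
  exact h2

end

theorem tpb (trf : TrfStmt) : TpbStmt := by
  intro K B A I J N _ _ _ _ _ _ _ _ _ D g h hg hh
  let G : A →ₗ[K] D.PB := (g ∘ₗ tpbT D).codRestrict D.PB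
    (fun a => hg _ (fun b => tpbT_comm D a b))
  let F : D.PB →ₗ[K] A := (tpbB D) ∘ₗ D.PB.subtype
  have e0 : h = G ∘ₗ F := by
    apply LinearMap.ext
    intro p
    apply Subtype.ext
    rw [hh p]
    show g p = g (tpbT D (tpbB D (p : A)))
    rw [tpb_fix]
  rw [e0, LinearMap.trace_comp_comm' F G, trf K A J D.d (F ∘ₗ G)]
  have e1 : ∀ p, D.d.lam (D.d.b' p * (F ∘ₗ G) (D.d.b p)) =
      ∑ r, ∑ l, D.T (D.y r * g (tpbT D (D.d.b p)) * D.u l) *
        D.T (D.d.b' p * (D.x r * D.u' l)) := by
    intro p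
    show D.T (D.d.b' p * ∑ r, ∑ l, D.T (D.y r * g (tpbT D (D.d.b p)) * D.u l) •
      (D.x r * D.u' l)) = _
    rw [Finset.mul_sum, D.T_sum]
    refine Finset.sum_congr rfl fun r _ => ?_
    rw [Finset.mul_sum, D.T_sum]
    refine Finset.sum_congr rfl fun l _ => ?_
    rw [mul_smul_comm, D.T_smul]
  rw [Finset.sum_congr rfl fun p _ => e1 p, Finset.sum_comm]
  refine Finset.sum_congr rfl fun r _ => ?_
  conv_rhs => rw [Finset.sum_comm]
  conv_lhs => rw [Finset.sum_comm]
  refine Finset.sum_congr rfl fun l _ => ?_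
  -- the linear functional
  let L : A →ₗ[K] K :=
    { toFun := fun z => D.T (D.y r * g (tpbT D z) * D.u l)
      map_add' := fun z z' => by simp only [map_add, mul_add, add_mul, D.T_add]
      map_smul' := fun s z => by
        simp only [map_smul, mul_smul_comm, smul_mul_assoc, D.T_smul, RingHom.id_apply,
          smul_eq_mul] }
  have e2 : ∑ p, D.T (D.y r * g (tpbT D (D.d.b p)) * D.u l) * D.T (D.d.b' p * (D.x r * D.u' l))
      = L (D.x r * D.u' l) := by
    conv_rhs => rw [← D.k4d (D.x r * D.u' l), map_sum]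
    refine Finset.sum_congr rfl fun p _ => ?_
    rw [map_smul, smul_eq_mul, mul_comm]
    rfl
  rw [e2]
  show D.T (D.y r * g (∑ i, D.u i * (D.x r * D.u' l) * D.u' i) * D.u l) = _
  rw [map_sum, Finset.mul_sum, Finset.sum_mul, D.T_sum]
  refine Finset.sum_congr rfl fun i _ => ?_
  rw [mul_assoc, D.T_comm]
  simp only [mul_assoc]

end Pool.Agent.PFD.H69
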